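import Pool.Agent.Lib.DN.H3.Spec
import Pool.Agent.Lib.DI.H3.Cng

set_option autoImplicit false

/-!
# Theorem DN, part H, module `Cng`: the congruence for `w`
-/

open scoped Pointwise nonZeroDivisors

noncomputable section

namespace Pool.Agent.DN.H3

open Pool.Agent.MuZ Pool.Agent.FW NumberField IsDedekindDomain
open Pool.Agent.DI (io ofC io_inj exists_io io_ofC ofC_io VP MP UP TP ex sqr sqr_sq kap)
open Pool.Agent.DI.H3 (Sqs Nsq S_KAP S_hLeg S_hPrm)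
open Pool.Agent.DN

theorem tCng (h1 : S_O6) (h2 : S_D3) (h3 : S_D6) (h4 : S_hSq) (h5 : S_hDg) (h6 : S_hLat) (h7 : S_hGd)
    (h8 : S_hUni) : S_hCng := by
  intro k o _ f N m T b l la r D P hP hlP hla
  have hPp : P.IsPrime := hP.1
  obtain ⟨-, hmul, -, -, hex⟩ := h1 k o
  obtain ⟨-, -, -, hcard, hSqs, -⟩ := h4 l D.hl D.hl4
  obtain ⟨hDeg, hAbv, -⟩ := h5 k o f l la r D.toDatL
  obtain ⟨-, -, -, -, -, hb⟩ := h6 k o f l la r D.toDatL
  obtain ⟨hLam, -⟩ := hb b D.hb0 D.hlb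
  obtain ⟨hU1, hU2, hU3⟩ := h8 k o f N m T b l la r D
  have hN1 : 1 ≤ N := le_trans one_le_two D.hN
  have hb2 : PrI b 2 := ((hmul 2 f b).1 D.hb).1
  -- (0) the primes 2 and m
  have hl2 : l ≠ 2 := by
    have := D.hl4
    omega
  have hlM : MP P ((l : ℕ) : Om) := (Pool.Agent.DI.MP.nat_iff l).2 hlP
  have hP2 : ¬ MP P 2 := by
    intro h
    have e : (1 : Om) = ((l : ℕ) : Om) - 2 * ((l / 2 : ℕ) : Om) := by
      have h4 := D.hl4
      have e1 : l = 1 + 2 * (l / 2) := by omega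
      have e2 : ((l : ℕ) : Om) = 1 + 2 * ((l / 2 : ℕ) : Om) := by
        exact_mod_cast congrArg (Nat.cast : ℕ → Om) e1
      rw [e2]
      ring
    apply Pool.Agent.DI.MP.one_not (P := P)
    rw [e]
    exact hlM.sub (Pool.Agent.DI.MP.mul_right h (Pool.Agent.DI.VP.nat _))
  have hPm : ¬ Abv P m := by
    intro h
    obtain ⟨μ, hμ, -, c, hc⟩ := hex l m D.hl.pos D.hm0 D.hlm
    have e : (1 : Om) = toO μ - ((l : ℕ) : Om) * toO c := by
      have e1 : μ = 1 + (l : OO k o) * c := by rw [← hc]; ring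
      rw [e1, toO_add, toO_mul, toO_one, toO_nat]
      ring
    apply Pool.Agent.DI.MP.one_not (P := P)
    rw [e]
    exact (h μ hμ).sub (Pool.Agent.DI.MP.mul_right hlM (toO_VP c))
  have hndla : ¬ (2 : ℤ) ∣ Nm la := by
    rw [D.hla]
    have := D.hl4
    omega
  obtain ⟨-, -, -, hUt⟩ := hU1 P hP hP2
  -- (1) the congruences for one `t`
  have hgood : ∀ t ∈ T, Gd m b (Tz f N t) := by
    intro t ht
    exact (h7 k o f N m b t la 0 D.hf hN1 D.hm0 D.hm2 D.hb0 hb2 (hU2 t ht) hndla).2.1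
  have hj : ∀ t ∈ T, ∀ j ∈ Sqs l,
      MP P (Theta m b (Tz f N t + pL la j) - Theta m b (Tz f N t)) := by
    intro t ht j hj
    obtain ⟨hj0, hjl⟩ := hSqs j hj
    have hz := (h2 k o (sp la) l hDeg D.cop30 P (D.hG P hP hla) ((hAbv P hP).1 hla) b D.g15).1 _ (hLam j hj0 hjl).1
    have hg := hgood t ht
    exact (h3 k o m b D.hm0 D.g15 D.hm2 D.m15 P (D.hG P hP hla) hP2 hPm _ hg.1 (hg.2 P hP hP2)).1 _ hz
  -- (2) the products
  rw [hU3, ← Finset.prod_pow]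
  unfold epq
  refine Pool.Agent.DI.H3.CngAux.prod_congr T _ _ (fun t ht => (hUt t ht).1.pow _) fun t ht => ?_
  have e : Theta m b (Tz f N t) ^ ((l - 1) / 2) = ∏ _j ∈ Sqs l, Theta m b (Tz f N t) := by
    rw [Finset.prod_const, hcard]
  rw [e]
  exact Pool.Agent.DI.H3.CngAux.prod_congr (Sqs l) _ _ (fun _ _ => (hUt t ht).1) fun j hj' =>
    hj t ht j hj'

end Pool.Agent.DN.H3
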