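import Pool.Agent.Lib.DN.H3.Spec

set_option autoImplicit false

/-!
# Theorem DN, part H: assembly of `S_KK`
-/

open scoped Pointwise nonZeroDivisors

noncomputable section

namespace Pool.Agent.DN.H3

open Pool.Agent.MuZ Pool.Agent.FW NumberField IsDedekindDomain
open Pool.Agent.DI (io ofC io_inj exists_io io_ofC ofC_io VP MP UP TP ex sqr sqr_sq kap)
open Pool.Agent.DI.H3 (Sqs Nsq S_KAP S_hLeg S_hPrm)
open Pool.Agent.DN

namespace FinAux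

private theorem npr_smul {Q : Ideal ZZ} (hQ : Npr Q) (s : Gal(Om/ℚ)) : Npr (s • Q) := by
  have hQp : Q.IsPrime := hQ.1
  refine ⟨Ideal.IsPrime.smul s, fun h => hQ.2 ?_⟩
  rw [eq_bot_iff]
  intro x hx
  have h1 : s • x ∈ s • Q := (DI.smul_mem_smul_iff (P := Q) s x).2 hx
  rw [h, Ideal.mem_bot] at h1
  rw [Ideal.mem_bot]
  have h2 : s⁻¹ • (s • x) = s⁻¹ • (0 : ZZ) := by rw [h1]
  rwa [inv_smul_smul, smul_zero] at h2

private theorem two_notMem {Q : Ideal ZZ} (hQ : Npr Q) {l : ℕ} (hl : l % 4 = 1) (h : (l : ZZ) ∈ Q) :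
    (2 : ZZ) ∉ Q := by
  intro h2
  have hQp : Q.IsPrime := hQ.1
  obtain ⟨m, hm⟩ : ∃ m, l = 2 * m + 1 := ⟨l / 2, by omega⟩
  have h3 : ((2 : ZZ) * (m : ZZ)) ∈ Q := Q.mul_mem_right _ h2
  have h4 : (1 : ZZ) ∈ Q := by
    have h5 := Q.sub_mem h h3
    rw [hm] at h5
    push_cast at h5
    rwa [add_sub_cancel_left] at h5
  exact hQp.one_notMem h4

private theorem mp2_iff {Q : Ideal ZZ} (hQ : Npr Q) : MP Q 2 ↔ (2 : ZZ) ∈ Q := by
  have hQp : Q.IsPrime := hQ.1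
  have h := DI.MP.nat_iff (P := Q) 2
  push_cast at h
  exact h

private theorem two_smul {Q : Ideal ZZ} (s : Gal(Om/ℚ)) : (2 : ZZ) ∈ s • Q ↔ (2 : ZZ) ∈ Q := by
  have h := DI.smul_mem_smul_iff (P := Q) s (2 : ZZ)
  have h2 : s • (2 : ZZ) = 2 := by
    apply Subtype.ext
    rw [DI.smul_coe]
    exact map_ofNat s 2
  rwa [h2] at h

private theorem not_both {Q : Ideal ZZ} (hQ : Npr Q) (h2 : (2 : ZZ) ∉ Q) {w : Om} (h : MP Q (w - 1))
    (h' : MP Q (w + 1)) : False := by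
  have hQp : Q.IsPrime := hQ.1
  have h3 := h'.sub h
  have h4 : w + 1 - (w - 1) = (2 : Om) := by ring
  rw [h4] at h3
  exact h2 ((mp2_iff hQ).1 h3)

private theorem zmod2_ne {x : ZMod 2} (h : x ≠ 0) : x = 1 := by
  revert x
  decide

end FinAux

open FinAux

theorem tFin : S_hFin := by
  intro hRes hKAP k o _ f N m T b hf h3 hN hm hm2 hmf hT hb hb2
  obtain ⟨B, hB, hres⟩ := hRes k o f N m T b hf h3 hN hm hm2 hmf hT hb hb2
  refine ⟨B, hB, ?_⟩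
  intro instF l hl hl4 hlc Q hQ hlQ hcard φ hφ
  have hφF : φ ∈ (Mn k o f N).fixingSubgroup := hφ.1
  have hfro : ∀ x : ZZ, φ • x - x ^ l ∈ Q := by
    intro x
    have h := hφ.2 x
    rwa [hcard] at h
  obtain ⟨h, hh, w, hw0, hh0, hw1, hw2, hunit, hunr, hram⟩ :=
    hres l hl hl4 hlc Q hQ hlQ φ hφF hfro
  obtain ⟨x, hx0, hx⟩ := hKAP (Mn k o f N) h hh hh0 w hw0 hw1
    (fun τ hτ h1 => hw2 τ hτ (by rw [h1]; exact one_ne_zero))
  refine ⟨x, hx0, ?_, ?_⟩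
  · intro q' Q' hAb h2 hne
    have hQ' : Npr Q' := ⟨hAb.1, hAb.2.1⟩
    have h2' : (2 : ZZ) ∉ Q' := fun h3 => h2 ((mp2_iff hQ').2 h3)
    obtain ⟨h3, _⟩ := hx q' Q' hAb h2' (hunit Q' hQ' h2)
    refine even_iff_two_dvd.1 (h3 ?_)
    intro τ hτ hτF
    refine hunr Q' hQ' h2 ?_ τ hτ hτF
    rintro σ hσ rfl
    exact hne ⟨σ, hσ, rfl⟩
  · intro s hs q' hq'
    have hsQ : Npr (s • Q) := npr_smul hQ s
    have h2Q : (2 : ZZ) ∉ Q := two_notMem hQ hl4 hlQ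
    have h2 : (2 : ZZ) ∉ s • Q := fun h3 => h2Q ((two_smul s).1 h3)
    have h2' : ¬ MP (s • Q) 2 := fun h3 => h2 ((mp2_iff hsQ).1 h3)
    have hAb : Ab (Mn k o f N) (s • Q) q' := ⟨hsQ.1, hsQ.2, hq'⟩
    obtain ⟨_, h4⟩ := hx q' (s • Q) hAb h2 (hunit (s • Q) hsQ h2')
    obtain ⟨⟨ι, hι, hιF, hι1⟩, h5, h6⟩ := hram s hs
    have h7 := h4 ⟨ι, hι, hιF, zmod2_ne hι1⟩
    by_cases hkap : kap (s⁻¹ (uN f N m T b)) φ = 0
    · have h8 := h5 hkap
      rcases h7 with ⟨he, _⟩ | ⟨_, ho⟩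
      · rw [hkap]
        obtain ⟨m', hm'⟩ := he
        rw [hm', Int.cast_add]
        exact CharTwo.add_self_eq_zero _
      · exact (not_both hsQ h2 h8 ho).elim
    · have h8 := h6 hkap
      rcases h7 with ⟨_, he⟩ | ⟨ho, _⟩
      · exact (not_both hsQ h2 he h8).elim
      · rw [zmod2_ne hkap]
        obtain ⟨m', hm'⟩ := ho
        rw [hm', Int.cast_add, Int.cast_mul]
        have h9 : ((2 : ℤ) : ZMod 2) = 0 := by decide
        rw [h9, zero_mul, zero_add, Int.cast_one]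

end Pool.Agent.DN.H3
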