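import Pool.Agent.Lib.DN.H3.Spec

/-! # Theorem DN, part H, module Hom: the quadratic character `h` -/

set_option autoImplicit false

open scoped Pointwise nonZeroDivisors

noncomputable section

namespace Pool.Agent.DN.H3

open Pool.Agent.MuZ Pool.Agent.FW NumberField IsDedekindDomain
open Pool.Agent.DI (io ofC io_inj exists_io io_ofC ofC_io VP MP UP TP ex sqr sqr_sq kap)
open Pool.Agent.DI.H3 (Sqs Nsq S_KAP S_hLeg S_hPrm)
open Pool.Agent.DN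

theorem tHom (h1 : S_O6) (h2 : S_O7) (h3 : S_E1) (h4 : S_E8) (h5 : S_hSq) (h6 : S_hRdm)
    (_h7 : S_hHN) (h8 : S_hFix) : S_hHom := by
  classical
  intro k o _ f N l la r hN D
  obtain ⟨m1, m2, m3, m4, m5, m6, m7, -, m9, m10⟩ := h6 k o f l la r D
  have h15 : 15 ∣ f * 2 ^ N * l := fif_dvd' D.h3 N l
  have hM : 0 < f * 2 ^ N * l :=
    Nat.mul_pos (Nat.mul_pos D.hf.pos (pow_pos two_pos _)) D.hl.pos
  obtain ⟨-, -, -, o4, -⟩ := h1 k o
  obtain ⟨p1, p2, p3, p4, -, p6, -, p8, -, -⟩ := h2 k o _ hM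
  obtain ⟨-, e2, e3, e4, -⟩ := h3 k o _ hM h15
  obtain ⟨s1, -, s3, -, -, -, -, -, -⟩ := h5 l D.hl D.hl4
  obtain ⟨-, x2, -, x4⟩ := h8 k o f N D.hf D.h3 hN
  have hGK : ∀ τ ∈ (Mn k o f N).fixingSubgroup, τ ∈ GK k o := fun τ hτ => ((x2 τ).1 hτ).1
  have hex : ∀ τ ∈ (Mn k o f N).fixingSubgroup, ∃ a : OO k o, Psi τ (f * 2 ^ N * l) (sp a) := by
    intro τ hτ
    obtain ⟨a, -, ha⟩ := x4 τ hτ l D.hl.pos
    exact ⟨a, ha⟩
  have hcM : ∀ (τ : Gal(Om/ℚ)) (a : OO k o), Psi τ (f * 2 ^ N * l) (sp a) →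
      Cop a (f * 2 ^ N * l) := fun τ a ha => (o4 _ a hM).1 (pri_dvd (Dvd.intro_left _ rfl) ha.cop)
  have hne : ∀ (τ : Gal(Om/ℚ)) (a : OO k o), Psi τ (f * 2 ^ N * l) (sp a) → rd r a ≠ 0 :=
    fun τ a ha => m7 a (cop_dvd (hcM τ a ha) (Dvd.intro_left _ rfl))
  have h0 : ∀ (τ : Gal(Om/ℚ)) (a : OO k o), Psi τ (f * 2 ^ N * l) (sp a) → a ≠ 0 := by
    intro τ a ha h10
    exact ha.ne (Ideal.span_singleton_eq_bot.2 h10)
  have hz : ∀ x : OO k o, ((f * 2 ^ N * l : ℕ) : OO k o) ∣ x → rd r x = 0 := by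
    intro x hx
    refine (D.hker x).2 (m9.trans (dvd_trans ?_ hx))
    exact Nat.cast_dvd_cast (Dvd.intro_left (f * 2 ^ N) rfl)
  have hrd : ∀ (τ : Gal(Om/ℚ)) (a a' : OO k o), Psi τ (f * 2 ^ N * l) (sp a) →
      Psi τ (f * 2 ^ N * l) (sp a') → (IsSquare (rd r a) ↔ IsSquare (rd r a')) := by
    intro τ a a' ha ha'
    have h10 := e2 τ _ _ ha ha'
    obtain ⟨e, he, h11⟩ := (p8 a a' (h0 τ a ha) (h0 τ a' ha') (hcM τ a ha) (hcM τ a' ha')).1 h10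
    have h12 := hz _ h11
    rw [m3, sub_eq_zero, m1] at h12
    have h13 : rd r e ≠ 0 := by
      intro h14
      rw [h14, zero_mul] at h12
      exact hne τ a ha h12
    rw [h12, s1 _ _ h13 (hne τ a' ha')]
    exact ⟨fun h => h.1 (m10 e he), fun h => ⟨fun _ => h, fun _ => m10 e he⟩⟩
  obtain ⟨hh, hdef⟩ : ∃ hh : Gal(Om/ℚ) → ZMod 2, hh = fun τ =>
    if τ ∈ (Mn k o f N).fixingSubgroup ∧
      ¬ ∃ a : OO k o, Psi τ (f * 2 ^ N * l) (sp a) ∧ IsSquare (rd r a) then 1 else 0 := ⟨_, rfl⟩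
  have hval : ∀ τ ∈ (Mn k o f N).fixingSubgroup, ∀ a : OO k o, Psi τ (f * 2 ^ N * l) (sp a) →
      hh τ = if IsSquare (rd r a) then 0 else 1 := by
    intro τ hτ a ha
    have e1 : hh τ = if τ ∈ (Mn k o f N).fixingSubgroup ∧
      ¬ ∃ a : OO k o, Psi τ (f * 2 ^ N * l) (sp a) ∧ IsSquare (rd r a) then 1
      else 0 := by rw [hdef]
    by_cases hs : IsSquare (rd r a)
    · have e5 : ¬ (τ ∈ (Mn k o f N).fixingSubgroup ∧
          ¬ ∃ a : OO k o, Psi τ (f * 2 ^ N * l) (sp a) ∧ IsSquare (rd r a)) :=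
        fun h => h.2 ⟨a, ha, hs⟩
      rw [e1, if_neg e5, if_pos hs]
    · have e5 : τ ∈ (Mn k o f N).fixingSubgroup ∧
          ¬ ∃ a : OO k o, Psi τ (f * 2 ^ N * l) (sp a) ∧ IsSquare (rd r a) := by
        refine ⟨hτ, ?_⟩
        rintro ⟨a', ha', hs'⟩
        exact hs ((hrd τ a' a ha' ha).1 hs')
      rw [e1, if_pos e5, if_neg hs]
  refine ⟨hh, ⟨?_, ?_, ?_, ?_⟩, ?_⟩
  · intro g hg
    rw [hdef]
    exact if_neg fun h => hg h.1
  · intro g hg g' hg'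
    obtain ⟨a, ha⟩ := hex g hg
    obtain ⟨b, hb⟩ := hex g' hg'
    have h9 := s1 (rd r a) (rd r b) (hne g a ha) (hne g' b hb)
    have hab := e4 _ _ _ _ ha hb
    rw [Ideal.span_singleton_mul_span_singleton] at hab
    rw [hval g hg a ha, hval g' hg' b hb, hval (g * g') (mul_mem hg hg') (a * b) hab, m1]
    by_cases hs : IsSquare (rd r a) <;> by_cases hs' : IsSquare (rd r b)
    · rw [if_pos (h9.2 (by simp [hs, hs'])), if_pos hs, if_pos hs', add_zero]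
    · rw [if_neg (fun h => by
        have := h9.1 h
        exact hs' (this.1 hs)), if_pos hs, if_neg hs', zero_add]
    · rw [if_neg (fun h => by
        have := h9.1 h
        exact hs (this.2 hs')), if_neg hs, if_pos hs', add_zero]
    · rw [if_pos (h9.2 (by simp [hs, hs'])), if_neg hs, if_neg hs']
      decide
  · have htop : (⊤ : Ideal (OO k o)) ≠ ⊥ := top_ne_bot
    have hpt : PrI (⊤ : Ideal (OO k o)) (f * 2 ^ N * l) := top_sup_eq _
    have hE := h4 k o (f * 2 ^ N * l) (fun c => Ray (f * 2 ^ N * l) c ⊤) hM h15 (p1 ⊤)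
      (fun a ha => ⟨(p6 a ⊤ ha).1.2 htop, (p6 a ⊤ ha).2.2 hpt⟩)
      (fun a a' ha haa' => p3 _ _ _ (p2 _ _ haa') ha)
      (fun a a' ha ha' => by
        have h10 := p4 _ _ _ _ ha ha'
        rwa [Ideal.mul_top] at h10)
    obtain ⟨hfin, -, hEm⟩ := hE
    refine ⟨⟨(FixI (f * 2 ^ N * l) (fun c : Ideal (OO k o) =>
      Ray (f * 2 ^ N * l) c ⊤)).fixingSubgroup,
      IntermediateField.fixingSubgroup_isOpen _⟩, fun g hg hgE => ?_⟩
    obtain ⟨a, ha⟩ := hex g hg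
    have h10 : Ray (f * 2 ^ N * l) (sp a) ⊤ :=
      (hEm g (hGK g hg) _ ha).1 ((IntermediateField.mem_fixingSubgroup_iff _ _).1 hgE)
    have h11 := e3 _ _ _ ha h10
    rw [← Ideal.span_singleton_one] at h11
    rw [hval g hg 1 h11, m6, if_pos ⟨1, by simp⟩]
  · intro Λ hΛ
    exact absurd hΛ (Set.notMem_empty Λ)
  · intro τ hτ M a hM' hlM _ ha
    rw [hval τ hτ a ((h3 k o M hM' (h15.trans hlM)).2.2.2.2 τ _ _ ha hlM h15)]
    by_cases hs : IsSquare (rd r a)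
    · simp [hs]
    · simp [hs]

end Pool.Agent.DN.H3
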