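import Pool.Agent.Lib.DN.H3.Spec

set_option autoImplicit false

/-!
# Theorem DN, part H: the elements of the inertia groups over `λ` are `± 1` modulo `f 2 ^ N`
-/

open scoped Pointwise nonZeroDivisors

noncomputable section

namespace Pool.Agent.DN.H3

open Pool.Agent.MuZ Pool.Agent.FW NumberField IsDedekindDomain
open Pool.Agent.DI (io ofC io_inj exists_io io_ofC ofC_io VP MP UP TP ex sqr sqr_sq kap)
open Pool.Agent.DN

theorem thirty_dvd {f N : ℕ} (h15 : 15 ∣ f) (hN : 1 ≤ N) : 30 ∣ f * 2 ^ N := by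
  have h2 : 2 ∣ 2 ^ N := dvd_pow_self 2 (by omega)
  have h3 : 15 * 2 ∣ f * 2 ^ N := mul_dvd_mul h15 h2
  exact h3

/-- `P` over `λ` is not over the number `n` prime to `l`. -/
theorem not_mp_nat {P : Ideal ZZ} [hP : P.IsPrime] {l n : ℕ} (hl : (l : ZZ) ∈ P)
    (h : l.Coprime n) : ¬ MP P (n : Om) := by
  intro h1
  have h2 : (n : ZZ) ∈ P := (DI.MP.nat_iff n).1 h1
  have h3 : IsCoprime (l : ℤ) (n : ℤ) := Nat.isCoprime_iff_coprime.2 h
  obtain ⟨a, b, hab⟩ := h3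
  apply hP.one_notMem
  have h4 : (a : ZZ) * (l : ZZ) + (b : ZZ) * (n : ZZ) = 1 := by
    have := congrArg (fun t : ℤ => (t : ZZ)) hab
    simpa using this
  rw [← h4]
  exact P.add_mem (P.mul_mem_left _ hl) (P.mul_mem_left _ h2)

/-- **The elements of inertia groups over `λ`.** -/
def S_hI15 : Prop := ∀ (k o : ℕ) [Ine k o] (f N l : ℕ) (la : OO k o) (r : ZMod l), 1 ≤ N →
  DatL f l la r → ∀ P : Ideal ZZ, Npr P → (l : ZZ) ∈ P → ∀ ι ∈ P.inertia Gal(Om/ℚ), ι ∈ GK k o →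
  ∀ a : OO k o, HN f N a → Psi ι (f * 2 ^ N * l) (sp a) →
    ∃ a' : OO k o, (a' = a ∨ a' = -a) ∧ (15 : OO k o) ∣ a' - 1

theorem tI15 (h1 : S_B1) (h2 : S_hE4) (h3 : S_hHN) : S_hI15 := by
  intro k o _ f N l la r hN hD P hP hlP ι hι hGK a haN ha
  have hPp : P.IsPrime := hP.1
  have hf0 : 0 < f := hD.hf.pos
  set M : ℕ := f * 2 ^ N with hMdef
  have hM : 0 < M := Nat.mul_pos hf0 (pow_pos two_pos _)
  have hMC : (M : ℂ) ≠ 0 := by exact_mod_cast hM.ne'
  have hM2 : 2 ≤ M := by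
    have : 15 ≤ f := Nat.le_of_dvd hf0 hD.h3
    have h4 : 1 ≤ 2 ^ N := Nat.one_le_two_pow
    nlinarith
  have hlM : l.Coprime M := by
    refine Nat.Coprime.mul_right hD.hlf (Nat.Coprime.pow_right _ ?_)
    rw [Nat.coprime_two_right, Nat.odd_iff]
    have := hD.hl4
    omega
  have h30 : 30 ∣ M * l := (thirty_dvd hD.h3 hN).mul_right l
  have hP2 : ¬ MP P (2 : Om) := by
    have h4 := not_mp_nat (P := P) (l := l) (n := 2) hlP (by
      rw [Nat.coprime_two_right, Nat.odd_iff]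
      have := hD.hl4
      omega)
    simpa using h4
  obtain ⟨ha0, -, hcM, ha2⟩ := (h3 k o f N hD.hf hD.h3 hN).2.2.2.2 a haN
  -- the ideal `(M)`
  have hδ : sp ((M : ℕ) : OO k o) ≠ ⊥ := by
    intro h
    have h5 : ((M : ℕ) : OO k o) = 0 := Ideal.span_singleton_eq_bot.1 h
    have h6 := toC_nat (n := k) (t := o) M
    rw [h5, toC_zero] at h6
    exact hMC h6.symm
  have hle : sp ((M * l : ℕ) : OO k o) ≤ sp ((M : ℕ) : OO k o) :=
    Ideal.span_singleton_le_span_singleton.2 (Nat.cast_dvd_cast (Dvd.intro _ rfl))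
  have hnA : ¬ Abv P (sp ((M : ℕ) : OO k o)) := by
    intro h
    have h5 := h _ (Ideal.mem_span_singleton_self _)
    rw [toO_nat] at h5
    exact not_mp_nat hlP hlM h5
  set z : ℂ := 1 / M with hz
  have hzm : z ∈ Lam (sp ((M : ℕ) : OO k o) * (⊤ : Ideal (OO k o))) := by
    rw [lam_sp, toC_nat]
    refine lam_top.2 ⟨1, ?_⟩
    rw [toC_one, hz]
    field_simp
  have e1 := h2 k o P hP hP2 ι hGK hι a ⊤ _ (M * l) (Nat.mul_pos hM hD.hl.pos) h30 g15_top hδ hle hnA ha2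
    ha z hzm
  -- the points are not in the lattice
  have key : ∀ u : OO k o, Cop u M → toC u * z ∉ Lam (⊤ : Ideal (OO k o)) := by
    intro u hu h
    obtain ⟨v, hv⟩ := lam_top.1 h
    have h5 : u = v * ((M : ℕ) : OO k o) := by
      apply toC_inj
      rw [toC_mul, toC_nat, ← hv, hz]
      field_simp
    have h6 : (M : ℤ) ∣ Nm u := by
      rw [h5, Nm_mul, Nm_nat]
      exact Dvd.intro_left (Nm v * M) (by ring)
    have h7 : IsUnit (M : ℤ) := IsCoprime.isUnit_of_dvd' hu h6 dvd_rfl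
    rw [Int.isUnit_iff] at h7
    omega
  have hz0 : z ∉ Lam (⊤ : Ideal (OO k o)) := by
    have := key 1 (cop_one M)
    rwa [toC_one, one_mul] at this
  obtain ⟨-, -, -, b4, -⟩ := h1 k o ⊤ top_ne_bot
  have h15 : (15 : OO k o) ∣ ((M : ℕ) : OO k o) := by
    obtain ⟨c, hc⟩ := hD.h3
    refine ⟨((c * 2 ^ N : ℕ) : OO k o), ?_⟩
    rw [hMdef, hc]
    push_cast
    ring
  rcases (b4 _ _ (key a hcM) hz0).1 e1 with h | h
  · obtain ⟨v, hv⟩ := lam_top.1 h
    refine ⟨a, Or.inl rfl, h15.trans ⟨v, ?_⟩⟩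
    apply toC_inj
    rw [toC_sub, toC_one, toC_mul, toC_nat, ← hv, hz]
    field_simp
  · obtain ⟨v, hv⟩ := lam_top.1 h
    refine ⟨-a, Or.inr rfl, h15.trans ⟨-v, ?_⟩⟩
    apply toC_inj
    rw [toC_sub, toC_one, toC_mul, toC_nat, toC_neg, toC_neg, ← hv, hz]
    field_simp
    ring

end Pool.Agent.DN.H3
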