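import Pool.Agent.Lib.DN.H3.Spec
import Pool.Agent.Lib.MuZ.Tot

/-!
# DK, part H3, module Tra: transitivity
-/

set_option autoImplicit false

open scoped Pointwise nonZeroDivisors

noncomputable section

namespace Pool.Agent.DN.H3

open Pool.Agent.MuZ Pool.Agent.FW Pool.Agent.DN NumberField IsDedekindDomain
open Pool.Agent.DI (io ofC io_inj exists_io io_ofC ofC_io VP MP UP TP ex sqr sqr_sq kap)

theorem tTra (h1 : S_hNmK) : S_hTra := by
  intro k o _ l la hl hla P Q hP hQ hPl hQl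
  obtain ⟨hnf, b, hb, hbp, hall⟩ := h1 k o l la hl hla
  have hcl : IsClosed ((KQ k o).fixingSubgroup : Set Gal(Om/ℚ)) :=
    InfiniteGalois.fixingSubgroup_isClosed (KQ k o)
  obtain ⟨g, hg, hgP⟩ := tot_trans (KQ k o).fixingSubgroup hcl Q P hQ.1 hP.1 (by
    intro x hx
    have hxL : (x : Om) ∈ KQ k o := by
      rw [← InfiniteGalois.fixedField_fixingSubgroup (KQ k o)]
      rintro ⟨g, hg⟩
      exact congrArg Subtype.val (hx g hg)
    have hint : IsIntegral ℤ (⟨(x : Om), hxL⟩ : KQ k o) := by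
      have h2 : IsIntegral ℤ (x : Om) := x.2
      have hinj : Function.Injective (algebraMap (KQ k o) Om) := (algebraMap (KQ k o) Om).injective
      exact (isIntegral_algebraMap_iff hinj).1 h2
    let y : 𝓞 (KQ k o) := ⟨⟨(x : Om), hxL⟩, hint⟩
    have hy : iO (KQ k o) y = x := Subtype.ext rfl
    have e1 : x ∈ Q ↔ y ∈ Q.comap (iO (KQ k o)) := by
      rw [Ideal.mem_comap, hy]
    have e2 : x ∈ P ↔ y ∈ P.comap (iO (KQ k o)) := by
      rw [Ideal.mem_comap, hy]
    rw [e1, e2, hall P hP.1 hPl, hall Q hQ.1 hQl])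
  exact ⟨g, hg, hgP⟩

end Pool.Agent.DN.H3
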