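import Pool.Agent.Lib.DN.H3.In15

set_option autoImplicit false

/-!
# Theorem DN, part H: `h` is unramified outside `2 λ` (`S_hUnr`)
-/

open scoped Pointwise nonZeroDivisors

noncomputable section

namespace Pool.Agent.DN.H3

open Pool.Agent.MuZ Pool.Agent.FW NumberField IsDedekindDomain
open Pool.Agent.DI (io ofC io_inj exists_io io_ofC ofC_io VP MP UP TP ex sqr sqr_sq kap)
open Pool.Agent.DI.H3 (Sqs Nsq S_KAP S_hLeg S_hPrm)
open Pool.Agent.DN

theorem tUnr (h1 : S_B1) (h3 : S_hE4) (h4 : S_O6) (h5 : S_hSq) (h6 : S_hRdm)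
    (h7 : S_hDg) (h8 : S_hLat) (h9 : S_hFix) (h10 : S_hHN) : S_hUnr := by
  intro k o _ f N l la r hN hD h hh P hP hP2 hPla ι hι hιL
  have hM : 0 < f * 2 ^ N * l :=
    Nat.mul_pos (Nat.mul_pos hD.hf.pos (pow_pos two_pos _)) hD.hl.pos
  obtain ⟨-, x2, -, x4⟩ := h9 k o f N hD.hf hD.h3 hN
  have hGK : ι ∈ GK k o := ((x2 ι).1 hιL).1
  obtain ⟨a, haN, ha⟩ := x4 ι hιL l hD.hl.pos
  obtain ⟨r1, r2, r3, r4, r5, r6, r7, -, -⟩ := h6 k o f l la r hD
  obtain ⟨q1, -, -, q4, -, q6⟩ := h8 k o f l la r hD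
  obtain ⟨g1, g2, g3⟩ := h7 k o f l la r hD
  obtain ⟨-, -, -, o4, -⟩ := h4 k o
  obtain ⟨-, sq2, -, -, -, -, -, -, -⟩ := h5 l hD.hl hD.hl4
  have hla0 : la ≠ 0 := by
    intro h0
    have h10 := hD.hla
    rw [h0, Nm_zero] at h10
    exact hD.hl.ne_zero (by exact_mod_cast h10.symm)
  have hla : toC la ≠ 0 := toC_ne hla0
  have hp1 : pL la 1 = 1 / toC la := by
    rw [pL, Nat.cast_one]
  have hcop : Cop a l := cop_dvd ((o4 _ a hM).1 (pri_dvd (Dvd.intro_left _ rfl) ha.cop)) (Dvd.intro_left _ rfl)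
  have hra : rd r a ≠ 0 := r7 a hcop
  have htop : (⊤ : Ideal (OO k o)) ≠ ⊥ := top_ne_bot
  have hPt : PrI (⊤ : Ideal (OO k o)) l := top_sup_eq _
  obtain ⟨q61, -⟩ := q6 ⊤ htop hPt
  obtain ⟨w1, w2⟩ := q61 1 one_pos hD.hl.one_lt
  -- the inertia group fixes `℘ (1/λ)`
  have ha2 : (2 : OO k o) ∣ a - 1 := ((h10 k o f N hD.hf hD.h3 hN).2.2.2.2 a haN).2.2.2
  have e4 : wpC (⊤ : Ideal (OO k o)) (toC a * pL la 1) = wpC (⊤ : Ideal (OO k o)) (pL la 1) :=
    h3 k o P hP hP2 ι hGK hι a ⊤ (sp la) (f * 2 ^ N * l) hM ((thirty_dvd hD.h3 hN).mul_right l) g15_top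
      g1.2.1 (g3 _ (Dvd.intro_left _ rfl)) (fun h10 => hPla ((g2 P hP).2 h10)) ha2 ha _ w1
  -- `a / λ` is not in the lattice
  have : NeZero l := ⟨hD.hl.ne_zero⟩
  have w3 : toC a * pL la 1 ∉ Lam (⊤ : Ideal (OO k o)) := by
    obtain ⟨x, hx⟩ := q1 a 1 (rd r a).val (by
      rw [ZMod.natCast_val, ZMod.cast_id, Nat.cast_one, mul_one])
    have hpos : 0 < (rd r a).val := by
      rw [Nat.pos_iff_ne_zero]
      intro h0
      exact hra ((ZMod.val_eq_zero _).1 h0)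
    have hn := (q61 (rd r a).val hpos (ZMod.val_lt _)).2
    intro hv
    apply hn
    have h10 := lam_sub hv (lam_top.2 ⟨x, rfl⟩)
    rwa [hx, add_sub_cancel_right] at h10
  obtain ⟨-, -, -, b6, -⟩ := h1 k o ⊤ htop
  have hsq : IsSquare (rd r a) := by
    rcases ((b6 _ _ w3 w2).1 e4) with hy | hy
    · obtain ⟨y, hy⟩ := lam_top.1 hy
      have e5 : a - 1 = y * la := by
        apply toC_inj
        rw [toC_sub, toC_one, toC_mul, ← hy, hp1]
        field_simp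
      have e6 : rd r (a - 1) = 0 := (hD.hker _).2 ⟨y, by rw [e5, mul_comm]⟩
      rw [r3, r6, sub_eq_zero] at e6
      rw [e6]
      exact ⟨1, by ring⟩
    · obtain ⟨y, hy⟩ := lam_top.1 hy
      have e5 : a + 1 = y * la := by
        apply toC_inj
        rw [toC_add, toC_one, toC_mul, ← hy, hp1]
        field_simp
      have e6 : rd r (a + 1) = 0 := (hD.hker _).2 ⟨y, by rw [e5, mul_comm]⟩
      rw [r2, r6] at e6
      rw [eq_neg_of_add_eq_zero_left e6]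
      exact sq2
  exact (hh ι hιL _ a hM (dvd_refl _) haN ha).2 hsq

end Pool.Agent.DN.H3
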