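import Pool.Agent.Lib.DN.D.All
import Pool.Agent.Lib.DN.E.AllB
import Pool.Agent.Lib.DN.E.Af3
import Pool.Agent.Lib.DN.E.Aff
import Pool.Agent.Lib.DN.E.Afi
import Pool.Agent.Lib.DN.E.Afx
import Pool.Agent.Lib.DN.E.AuxP
import Pool.Agent.Lib.DN.E.Dq
import Pool.Agent.Lib.DN.E.E10T
import Pool.Agent.Lib.DN.E.E10g
import Pool.Agent.Lib.DN.E.E10r
import Pool.Agent.Lib.DN.E.E10v
import Pool.Agent.Lib.DN.E.E2
import Pool.Agent.Lib.DN.E.E4b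
import Pool.Agent.Lib.DN.E.Efr
import Pool.Agent.Lib.DN.E.Eis
import Pool.Agent.Lib.DN.E.Ero
import Pool.Agent.Lib.DN.E.Ex
import Pool.Agent.Lib.DN.E.FN
import Pool.Agent.Lib.DN.E.Gw
import Pool.Agent.Lib.DN.E.Gwc
import Pool.Agent.Lib.DN.E.Gwf
import Pool.Agent.Lib.DN.E.Gwp
import Pool.Agent.Lib.DN.E.HsA
import Pool.Agent.Lib.DN.E.Inc
import Pool.Agent.Lib.DN.E.Iso
import Pool.Agent.Lib.DN.E.MO
import Pool.Agent.Lib.DN.E.OpA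
import Pool.Agent.Lib.DN.E.Pr3
import Pool.Agent.Lib.DN.E.Pri
import Pool.Agent.Lib.DN.E.PsK
import Pool.Agent.Lib.DN.E.SyA
import Pool.Agent.Lib.DN.G.AllA
import Pool.Agent.Lib.DN.H3.All

/-!
# Theorem DN, part H without hypotheses: `bH : S_H` (author helper9)

All inputs of `HIn` are proved: parts O, L, B (`DN/O/All`, `DN/B/All`), R, D (`DN/D/All`), E (`DN/E`), G (`DN/G/AllA`). The names of
this file are in the namespace `Pool.Agent.DN.H3`.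
-/

set_option autoImplicit false

namespace Pool.Agent.DN.H3

open Pool.Agent.DN

theorem hIso : S_Iso := sIso aB7
theorem hFN : Eb.S_FN := sFN aO7 aL3 aXOm hIso
theorem hE2 : S_E2 := sE2 aO6 aR2a aXOm Eb.aAbB aD1 aD3 hFN sInc
theorem hEx : Eb.S_Ex := sEx Eb.aGn (Eb.bOp hFN) sOpA hE2
theorem hE1 : S_E1 := Eb.cE1 aR1 hEx
theorem hE6 : S_E6 := Eb.bE6 hE1 hE2 hFN
theorem hE7 : S_E7 := Eb.bE7 hE1 hE2
theorem hE8 : S_E8 := Eb.bE8 hE1 hFN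
theorem hMO : S_MO := sMO
theorem hAux : S_Aux := sAux Eb.aGn Eb.aAbB hMO
theorem hGwc : S_Gwc := sGwc hMO (sGwf Eb.aAbB)
theorem hAfi : S_Afi := sAfi aL5 aO6 aR2a aD1
theorem hAfx : S_Afx := sAfx aL3 aXOm sDq hAfi
theorem hAf3 : S_Af3 := sAf3 aR2a aXOm aD2 hAfi
theorem hAff : S_Aff := sAff aO6 aR1 aXOm aD2 hAfi
theorem hPri : S_Pri := sPri aO6 aO7 hE1 sDq hAux hAff hAf3 hAfx
theorem hPr3 : S_Pr3 := sPr3 aO6 aO7 hE1 sDq hAux hAfi hAff hAf3 hAfx sEis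
theorem hGw : S_Gw := sGw aO5 (sGwp aO3 aO6 hE1 sDq hGwc hPri)
theorem hE4a : S_E4a := sE4a hE1 hPri hPr3 hGw
theorem hE4b : S_E4b := sE4b aO6 aL3 aL5 aB1 aB7 aR1 aLeg
theorem hE9 : S_E9 := Eb.bE9 hE1 hE4a aR1
theorem hSyA : S_SyA := sSyA aO6 aL5
theorem hE10v : S_E10v := sE10v aL5 aL6 aO6 aXOm
theorem hPsK : S_PsK := sPsK aO3 aL5 aL6 aB1 aB13 aR1 hE1 hIso
theorem hEro : S_Ero := sEro aL3 aL6 aO6 aB1 aB9 aR1 hSyA hE10v
theorem hE10r : S_E10r := sE10r aO2 aO7 aR1 hE1 hPsK (sEfr hIso) hEro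
theorem hE10g : S_E10g := sE10g aO6 aL5 aB11 aB14 aR1 aXOm hSyA sHsA hE10v
theorem hE10 : S_E10 := sE10 hE10v hE10r hE10g (sE10T aB14 aD8 hSyA)

/-- **The inputs of part H.** -/
theorem hHIn : HIn where
  b1 := aB1
  b7 := aB7
  gq := fun k o _ => (aR2a k o).2
  d3 := aD3
  d4 := aD4
  d5 := aD5
  d6 := aD6
  d7 := aD7
  d8 := aD8
  e1 := hE1
  e2 := hE2
  e4 := hE4b
  e8 := hE8
  e9 := hE9
  e10 := hE10
  gm := G.aGM hE1 hE6 hE8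
  g3 := G.aG3 aD5 aD7 aD8 hE1 hE10

/-- **Part H of Theorem DN, no hypotheses.** -/
theorem bH : S_H := aH hHIn

end Pool.Agent.DN.H3
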